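import Pool.Agent.U68.TU.Stm

set_option autoImplicit false

/-!
# Project TU (helper68), package ORD (helper465): the maximal order `OS` and its reduction modulo `s`
-/

namespace Pool.Agent.U465.TU

open NumberField Quaternion Pool.Agent.U68.TU

variable {K : Type} [Field K] [NumberField K]

/-- the element `a + b e₁ + c e₂ + d e₃` -/
noncomputable def mk (B : BQ K) (a b c d : 𝓞 K) : ℍ[K] :=
  ⟨(a : K) + b / (B.s : K) + c / (B.s : K) + d / 2,
    (b : K) / (B.s : K) + d / 2, (c : K) / (B.s : K) + d / 2, (d : K) / 2⟩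

theorem inOS_mk (B : BQ K) (a b c d : 𝓞 K) : InOS B (mk B a b c d) := ⟨a, b, c, d, rfl⟩

theorem hsK (B : BQ K) : (B.s : K) ^ 2 = 2 := by
  have h := congrArg (algebraMap (𝓞 K) K) B.hs
  rw [map_pow, map_ofNat] at h
  exact h

theorem s_ne (B : BQ K) : (B.s : K) ≠ 0 := by
  intro h
  have h2 := hsK B
  rw [h] at h2
  norm_num at h2

theorem div_s (B : BQ K) (x : K) : x / (B.s : K) = x * (B.s : K) / 2 := by
  have h := hsK B
  have h0 := s_ne B
  field_simp
  linear_combination (-x) * h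

theorem mk_eq (B : BQ K) (a b c d : 𝓞 K) : mk B a b c d =
    ⟨(a : K) + (b * B.s / 2) + (c * B.s / 2) + d / 2,
      (b : K) * (B.s : K) / 2 + d / 2, (c : K) * (B.s : K) / 2 + d / 2, (d : K) / 2⟩ := by
  unfold mk
  rw [div_s B (b : K), div_s B (c : K)]

theorem mk_re (B : BQ K) (a b c d : 𝓞 K) :
    (mk B a b c d).re = (a : K) + (b * B.s / 2) + (c * B.s / 2) + d / 2 := by rw [mk_eq]
theorem mk_imI (B : BQ K) (a b c d : 𝓞 K) :
    (mk B a b c d).imI = (b : K) * (B.s : K) / 2 + d / 2 := by rw [mk_eq]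
theorem mk_imJ (B : BQ K) (a b c d : 𝓞 K) :
    (mk B a b c d).imJ = (c : K) * (B.s : K) / 2 + d / 2 := by rw [mk_eq]
theorem mk_imK (B : BQ K) (a b c d : 𝓞 K) :
    (mk B a b c d).imK = (d : K) / 2 := by rw [mk_eq]

theorem mk_add (B : BQ K) (a b c d a' b' c' d' : 𝓞 K) :
    mk B a b c d + mk B a' b' c' d' = mk B (a + a') (b + b') (c + c') (d + d') := by
  apply Quaternion.ext
  · simp only [Quaternion.re_add, mk_re, map_add]; ring
  · simp only [Quaternion.imI_add, mk_imI, map_add]; ring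
  · simp only [Quaternion.imJ_add, mk_imJ, map_add]; ring
  · simp only [Quaternion.imK_add, mk_imK, map_add]; ring

theorem mk_sub (B : BQ K) (a b c d a' b' c' d' : 𝓞 K) :
    mk B a b c d - mk B a' b' c' d' = mk B (a - a') (b - b') (c - c') (d - d') := by
  apply Quaternion.ext
  · simp only [Quaternion.re_sub, mk_re, map_sub]; ring
  · simp only [Quaternion.imI_sub, mk_imI, map_sub]; ring
  · simp only [Quaternion.imJ_sub, mk_imJ, map_sub]; ring
  · simp only [Quaternion.imK_sub, mk_imK, map_sub]; ring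

theorem mk_smul (B : BQ K) (t a b c d : 𝓞 K) :
    (t : K) • mk B a b c d = mk B (t * a) (t * b) (t * c) (t * d) := by
  apply Quaternion.ext
  · simp only [Quaternion.re_smul, mk_re, map_mul, smul_eq_mul]; ring
  · simp only [Quaternion.imI_smul, mk_imI, map_mul, smul_eq_mul]; ring
  · simp only [Quaternion.imJ_smul, mk_imJ, map_mul, smul_eq_mul]; ring
  · simp only [Quaternion.imK_smul, mk_imK, map_mul, smul_eq_mul]; ring

theorem mk_star (B : BQ K) (a b c d : 𝓞 K) :
    star (mk B a b c d) = mk B (a + B.s * b + B.s * c + d) (-b) (-c) (-d) := by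
  apply Quaternion.ext
  · simp only [Quaternion.re_star, mk_re, map_add, map_mul, map_neg]; ring
  · simp only [Quaternion.imI_star, mk_imI, map_neg]; ring
  · simp only [Quaternion.imJ_star, mk_imJ, map_neg]; ring
  · simp only [Quaternion.imK_star, mk_imK, map_neg]; ring

theorem mk_mul (B : BQ K) (a b c d A B' C D : 𝓞 K) :
    mk B a b c d * mk B A B' C D = mk B
      (a * A - b * B' - c * C - d * D - c * B' - B.s * (d * B') - B.s * (c * D))
      (a * B' + b * A + B.s * (b * B') + B.s * (c * B') + d * B' + c * D - d * C)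
      (a * C + c * A + B.s * (c * C) + B.s * (c * B') - b * D + d * B' + c * D)
      (a * D + d * A + d * D + b * C - c * B' + B.s * (b * D) + B.s * (d * C)) := by
  have h := hsK B
  apply Quaternion.ext
  · simp only [Quaternion.re_mul, mk_re, mk_imI, mk_imJ, mk_imK, map_add, map_mul, map_sub]
    linear_combination (-((b : K) * B') / 2 + (b : K) * C / 4 - 3 * (c : K) * B' / 4 - (c : K) * C / 2) * h
  · simp only [Quaternion.imI_mul, mk_re, mk_imI, mk_imJ, mk_imK, map_add, map_mul, map_sub]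
    linear_combination ((b : K) * C / 4 - (c : K) * B' / 4) * h
  · simp only [Quaternion.imJ_mul, mk_re, mk_imI, mk_imJ, mk_imK, map_add, map_mul, map_sub]
    linear_combination ((b : K) * C / 4 - (c : K) * B' / 4) * h
  · simp only [Quaternion.imK_mul, mk_re, mk_imI, mk_imJ, mk_imK, map_add, map_mul, map_sub]
    linear_combination ((b : K) * C / 4 - (c : K) * B' / 4) * h


theorem mk_one (B : BQ K) : (1 : ℍ[K]) = mk B 1 0 0 0 := by
  apply Quaternion.ext
  · simp [mk_re]
  · simp [mk_imI]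
  · simp [mk_imJ]
  · simp [mk_imK]

/-- `OS` is a ring closed under conjugation, with integral norms and traces, and self-dual. -/
theorem t_ORD : S_ORD := by
  intro K _ _ B
  have h := hsK B
  refine ⟨?_, ?_, ?_, ?_, ?_, ?_, ?_, ?_, ?_⟩
  · rintro x y ⟨a, b, c, d, rfl⟩ ⟨a', b', c', d', rfl⟩
    exact ⟨_, _, _, _, mk_mul B a b c d a' b' c' d'⟩
  · rintro x y ⟨a, b, c, d, rfl⟩ ⟨a', b', c', d', rfl⟩
    exact ⟨_, _, _, _, mk_add B a b c d a' b' c' d'⟩
  · rintro x ⟨a, b, c, d, rfl⟩
    exact ⟨_, _, _, _, mk_star B a b c d⟩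
  · rintro t x ⟨a, b, c, d, rfl⟩
    exact ⟨_, _, _, _, mk_smul B t a b c d⟩
  · rintro x ⟨a, b, c, d, rfl⟩
    change (∃ t : 𝓞 K, normSq (mk B a b c d) = (t : K)) ∧ ∃ t : 𝓞 K, 2 * (mk B a b c d).re = (t : K)
    refine ⟨⟨a ^ 2 + b ^ 2 + c ^ 2 + d ^ 2 + B.s * (a * b) + B.s * (a * c) + a * d + b * c +
      B.s * (b * d) + B.s * (c * d), ?_⟩, ⟨2 * a + B.s * b + B.s * c + d, ?_⟩⟩
    · rw [Quaternion.normSq_def']
      simp only [mk_re, mk_imI, mk_imJ, mk_imK, map_add, map_mul, map_pow]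
      linear_combination (((b : K) + c) ^ 2 / 4 + (b : K) ^ 2 / 4 + (c : K) ^ 2 / 4) * h
    · simp only [mk_re, map_add, map_mul, map_ofNat]
      ring
  · rw [mk_one B]
    exact inOS_mk B _ _ _ _
  · refine ⟨-1, B.s, 0, 0, ?_⟩
    change _ = mk B (-1) B.s 0 0
    apply Quaternion.ext
    · simp only [mk_re, map_neg, map_one, map_zero]
      linear_combination (-1 / 2 : K) * h
    · simp only [mk_imI, map_zero]
      linear_combination (-1 / 2 : K) * h
    · simp only [mk_imJ, map_zero]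
      ring
    · simp only [mk_imK, map_zero]
      ring
  · refine ⟨-1, 0, B.s, 0, ?_⟩
    change _ = mk B (-1) 0 B.s 0
    apply Quaternion.ext
    · simp only [mk_re, map_neg, map_one, map_zero]
      linear_combination (-1 / 2 : K) * h
    · simp only [mk_imI, map_zero]
      ring
    · simp only [mk_imJ, map_zero]
      linear_combination (-1 / 2 : K) * h
    · simp only [mk_imK, map_zero]
      ring
  · intro x hx
    obtain ⟨t0, h0⟩ := hx _ (inOS_mk B 1 0 0 0)
    obtain ⟨t1, h1⟩ := hx _ (inOS_mk B 0 1 0 0)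
    obtain ⟨t2, h2⟩ := hx _ (inOS_mk B 0 0 1 0)
    obtain ⟨t3, h3⟩ := hx _ (inOS_mk B 0 0 0 1)
    simp only [Quaternion.re_mul, Quaternion.re_star, Quaternion.imI_star, Quaternion.imJ_star,
      Quaternion.imK_star, mk_re, mk_imI, mk_imJ, mk_imK, map_zero, map_one] at h0 h1 h2 h3
    refine ⟨2 * t0 + t3 - B.s * (t1 + t2), 2 * t1 + t2 - B.s * t0 - B.s * t3,
      t1 + 2 * t2 - B.s * t0 - B.s * t3, 2 * t3 + t0 - B.s * (t1 + t2), ?_⟩
    change _ = mk B _ _ _ _
    have e0 : x.re = (t0 : K) / 2 := by linear_combination h0 / 2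
    have e1 : x.imI = (B.s : K) * t1 / 2 - t0 / 2 := by
      linear_combination (B.s : K) / 2 * h1 - h0 / 2 - (x.re + x.imI) / 2 * h
    have e2 : x.imJ = (B.s : K) * t2 / 2 - t0 / 2 := by
      linear_combination (B.s : K) / 2 * h2 - h0 / 2 - (x.re + x.imJ) / 2 * h
    have e3 : x.imK = (t3 : K) + t0 / 2 - (B.s : K) * (t1 + t2) / 2 := by
      linear_combination h3 - e0 - e1 - e2
    apply Quaternion.ext
    · simp only [mk_re, map_add, map_sub, map_mul, map_ofNat]
      rw [e0]
      linear_combination ((t0 : K) + t3) * h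
    · simp only [mk_imI, map_add, map_sub, map_mul, map_ofNat]
      rw [e1]
      linear_combination (((t0 : K) + t3) / 2) * h
    · simp only [mk_imJ, map_add, map_sub, map_mul, map_ofNat]
      rw [e2]
      linear_combination (((t0 : K) + t3) / 2) * h
    · simp only [mk_imK, map_add, map_sub, map_mul, map_ofNat]
      rw [e3]
      linear_combination (0 : K) * h

theorem mk_congr (B : BQ K) {a b c d a' b' c' d' : 𝓞 K} (h1 : a = a') (h2 : b = b') (h3 : c = c')
    (h4 : d = d') : mk B a b c d = mk B a' b' c' d' := by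
  rw [h1, h2, h3, h4]

/-- `OS / s OS` is a matrix ring of size two. -/
theorem t_MOD : S_MOD := by
  intro K _ _ B
  have h := B.hs
  refine ⟨mk B 0 0 1 1, mk B 1 1 0 0, mk B 1 1 1 0, inOS_mk B _ _ _ _, inOS_mk B _ _ _ _,
    inOS_mk B _ _ _ _, ⟨mk B (-1 - B.s) 0 1 1, inOS_mk B _ _ _ _, ?_⟩,
    ⟨mk B 0 (1 + B.s) 0 0, inOS_mk B _ _ _ _, ?_⟩,
    ⟨mk B (-B.s) (2 + B.s) (1 + B.s) 0, inOS_mk B _ _ _ _, ?_⟩,
    ⟨mk B (-1 - B.s) 1 (1 + B.s) 0, inOS_mk B _ _ _ _, ?_⟩,
    ⟨mk B (-1 - B.s) 0 1 (1 + B.s), inOS_mk B _ _ _ _, ?_⟩⟩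
  · rw [mk_mul, mk_sub, mk_smul]
    apply mk_congr
    · linear_combination h
    · ring
    · ring
    · ring
  · rw [mk_mul, mk_sub, mk_smul]
    apply mk_congr
    · ring
    · linear_combination (-1 : 𝓞 K) * h
    · ring
    · ring
  · rw [mk_mul, mk_one B, mk_sub, mk_sub, mk_smul]
    apply mk_congr
    · linear_combination h
    · linear_combination (-1 : 𝓞 K) * h
    · linear_combination (-1 : 𝓞 K) * h
    · ring
  · rw [mk_mul, mk_sub, mk_smul]
    apply mk_congr
    · linear_combination h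
    · ring
    · linear_combination (-1 : 𝓞 K) * h
    · ring
  · rw [mk_mul, mk_sub, mk_smul]
    apply mk_congr
    · linear_combination h
    · ring
    · ring
    · linear_combination (-1 : 𝓞 K) * h

end Pool.Agent.U465.TU
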